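import Mathlib

/-!
# Resonances of bounded potentials in dimension five: definitions (helper269, MP_f2af60_mp)
-/

set_option autoImplicit false

open MeasureTheory Filter Topology Complex
open scoped InnerProductSpace ENNReal NNReal

namespace Pool.Agent.H269

section HS

variable {ι : Type} [DecidableEq ι] {H : Type} [NormedAddCommGroup H] [InnerProductSpace ℂ H]

/-- the Hilbert-Schmidt norm of `A` is at most `c` -/
def HSle (b : HilbertBasis ι ℂ H) (A : H →L[ℂ] H) (c : ℝ) : Prop :=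
  0 ≤ c ∧ ∀ s : Finset ι, ∑ i ∈ s, ‖A (b i)‖ ^ 2 ≤ c ^ 2

/-- trace of the product of two operators -/
noncomputable def Tr2 (b : HilbertBasis ι ℂ H) (A B : H →L[ℂ] H) : ℂ :=
  ∑' i, ⟪b i, A (B (b i))⟫_ℂ

/-- matrix of the compression of `A` to the span of the basis vectors in `s` -/
noncomputable def Mx (b : HilbertBasis ι ℂ H) (A : H →L[ℂ] H) (s : Finset ι) : Matrix s s ℂ :=
  Matrix.of fun i j => ⟪b i, A (b j)⟫_ℂ

/-- regularized determinant of a finite matrix -/
noncomputable def d2 {n : Type} [Fintype n] [DecidableEq n] (M : Matrix n n ℂ) : ℂ :=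
  (1 + M).det * cexp (-M.trace)

/-- regularized determinant of `1 + A` -/
noncomputable def det2 (b : HilbertBasis ι ℂ H) (A : H →L[ℂ] H) : ℂ :=
  limUnder atTop (fun s : Finset ι => d2 (Mx b A s))

/-- `K` is an entire family of Hilbert-Schmidt operators with derivative `K'` -/
def HSDiff (b : HilbertBasis ι ℂ H) (K K' : ℂ → H →L[ℂ] H) : Prop :=
  (∀ z, ∃ c, HSle b (K z) c) ∧ (∀ z, ∃ c, HSle b (K' z) c) ∧
    ∀ z, ∃ C : ℝ, ∀ h : ℂ, ‖h‖ ≤ 1 → HSle b (K (z + h) - K z - h • K' z) (C * ‖h‖ ^ 2)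

end HS

/-- `A` is the integral operator on `L²(μ)` with kernel `k` -/
def IsKer {E : Type} [MeasurableSpace E] (μ : Measure E) (k : E → E → ℂ)
    (A : Lp ℂ 2 μ →L[ℂ] Lp ℂ 2 μ) : Prop :=
  ∀ f : Lp ℂ 2 μ, (∀ᵐ x ∂μ, Integrable (fun y => k x y * f y) μ) ∧
    (A f : E → ℂ) =ᵐ[μ] fun x => ∫ y, k x y * f y ∂μ

/-- five dimensional Euclidean space -/
abbrev E5 := EuclideanSpace ℝ (Fin 5)

/-- Lebesgue measure on the closed ball of radius `R` -/
noncomputable abbrev muR (R : ℝ) : Measure E5 := volume.restrict (Metric.closedBall (0 : E5) R)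

/-- the outgoing Green function of `-Δ - l²` in dimension five -/
noncomputable def GG (l : ℂ) (r : ℝ) : ℂ :=
  cexp (I * l * r) * (1 - I * l * r) / (8 * (Real.pi : ℂ) ^ 2 * (r : ℂ) ^ 3)

/-- its derivative with respect to `l` -/
noncomputable def GD (l : ℂ) (r : ℝ) : ℂ :=
  l * cexp (I * l * r) / (8 * (Real.pi : ℂ) ^ 2 * (r : ℂ))

end Pool.Agent.H269
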