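import Pool.Agent.H269.Defs

/-!
# Resonances in dimension five: the operator family and the determinant (helper269, MP_f2af60_mp)
-/

set_option autoImplicit false

open MeasureTheory Filter Topology Complex
open scoped InnerProductSpace ENNReal NNReal

namespace Pool.Agent.H269

/-- coefficients of the even power series of `GG (-l) r - GG l r` -/
noncomputable def cJ (l : ℂ) (j : ℕ) : ℂ :=
  ((j : ℂ) + 1) / (2 * (Real.pi : ℂ) ^ 2 * ((2 * j + 3).factorial : ℂ)) * (I * l) ^ (2 * j + 3)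

/-- the entire function of `r²` which equals `GG (-l) r - GG l r` for `r > 0` -/
noncomputable def JJ (l : ℂ) (r : ℝ) : ℂ := ∑' j : ℕ, cJ l j * (r : ℂ) ^ (2 * j)

/-- the kernel of the quadratic term -/
noncomputable def wk (κ : ℝ) (z : E5) : ℝ :=
  κ * Real.exp (-2 * κ * ‖z‖) * (1 + κ * ‖z‖) / (64 * Real.pi ^ 4 * ‖z‖ ^ 4)

/-- bounded operators on `L²` of the ball of radius `R` -/
abbrev Op (R : ℝ) := Lp ℂ 2 (muR R) →L[ℂ] Lp ℂ 2 (muR R)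

/-- `A l` is the cut-off free resolvent, `T l` is `V` times it, `TD l` is the derivative of `T` -/
structure Fam (R M : ℝ) (V : E5 → ℝ) (A T TD : ℂ → Op R) : Prop where
  hR : 0 < R
  hM : 0 ≤ M
  meas : Measurable V
  bdd : ∀ x, |V x| ≤ M
  supp : ∀ x, x ∉ Metric.closedBall (0 : E5) R → V x = 0
  kA : ∀ l, IsKer (muR R) (fun x y => GG l ‖x - y‖) (A l)
  kT : ∀ l, IsKer (muR R) (fun x y => (V x : ℂ) * GG l ‖x - y‖) (T l)
  kTD : ∀ l, IsKer (muR R) (fun x y => (V x : ℂ) * GD l ‖x - y‖) (TD l)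

/-- renormalized trace of `(1 + T l0)⁻¹ (T l - T l0)`; `Y0` is the inverse of `1 + T l0` -/
noncomputable def tauF {ι : Type} {R : ℝ} (b : HilbertBasis ι ℂ (Lp ℂ 2 (muR R))) (V : E5 → ℝ)
    (T : ℂ → Op R) (l0 : ℂ) (Y0 : Op R) (l : ℂ) : ℂ :=
  -(1 / 2) * JJ l 0 * (∫ x, (V x : ℂ) ∂(muR R)) -
    (∫ x, ∫ y, (V x : ℂ) * (V y : ℂ) * (GG l0 ‖x - y‖ * (GG l ‖x - y‖ - GG l0 ‖x - y‖))
      ∂(muR R) ∂(muR R)) + Tr2 b (T l0 * T l0 * Y0) (T l - T l0)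

/-- the determinant -/
noncomputable def DD {ι : Type} [DecidableEq ι] {R : ℝ} (b : HilbertBasis ι ℂ (Lp ℂ 2 (muR R)))
    (V : E5 → ℝ) (T : ℂ → Op R) (l0 : ℂ) (Y0 : Op R) (l : ℂ) : ℂ :=
  det2 b (Y0 * (T l - T l0)) * cexp (tauF b V T l0 Y0 l)

/-- the logarithmic derivative of the determinant; `Y` is the inverse of `1 + T l` -/
noncomputable def LL {ι : Type} {R : ℝ} (b : HilbertBasis ι ℂ (Lp ℂ 2 (muR R))) (V : E5 → ℝ)
    (T TD : ℂ → Op R) (l : ℂ) (Y : Op R) : ℂ :=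
  I * l ^ 2 / (8 * (Real.pi : ℂ) ^ 2) * (∫ x, (V x : ℂ) ∂(muR R)) -
    (∫ x, ∫ y, (V x : ℂ) * (V y : ℂ) * (GG l ‖x - y‖ * GD l ‖x - y‖) ∂(muR R) ∂(muR R)) +
    Tr2 b (T l * T l * Y) (TD l)

end Pool.Agent.H269
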