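import Pool.Agent.H269.Defs

/-!
# Resonances in odd dimension `n = 2 v + 3`: definitions (helper269, MP_f2af60_mp)
-/

set_option autoImplicit false

open MeasureTheory Filter Topology Complex
open scoped InnerProductSpace ENNReal NNReal

namespace Pool.Agent.H269

section Nuc

variable {ι : Type} {H : Type} [NormedAddCommGroup H] [InnerProductSpace ℂ H]

/-- the nuclear norm of `X` is at most `c` -/
def NucLe (X : H →L[ℂ] H) (c : ℝ) : Prop :=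
  ∃ v φ : ℕ → H, Summable (fun a => ‖v a‖ * ‖φ a‖) ∧ ∑' a, ‖v a‖ * ‖φ a‖ ≤ c ∧
    ∀ h, HasSum (fun a => ⟪φ a, h⟫_ℂ • v a) (X h)

/-- trace -/
noncomputable def tr (b : HilbertBasis ι ℂ H) (X : H →L[ℂ] H) : ℂ := ∑' i, ⟪b i, X (b i)⟫_ℂ

/-- determinant of `1 + X`, `X` nuclear -/
noncomputable def det1 [DecidableEq ι] (b : HilbertBasis ι ℂ H) (X : H →L[ℂ] H) : ℂ :=
  det2 b X * cexp (tr b X)

/-- `- T + T² / 2 - ... ± T^(p-1) / (p-1)` -/
noncomputable def ee (p : ℕ) (T : H →L[ℂ] H) : H →L[ℂ] H :=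
  ∑ j ∈ Finset.range (p - 1), ((-1 : ℂ) ^ (j + 1) / ((j : ℂ) + 1)) • T ^ (j + 1)

/-- `(1 + T) exp (- T + T² / 2 - ...) - 1` -/
noncomputable def Kp (p : ℕ) (T : H →L[ℂ] H) : H →L[ℂ] H :=
  (1 + T) * NormedSpace.exp (ee p T) - 1

end Nuc

/-- reverse Bessel polynomials -/
noncomputable def th : ℕ → ℂ → ℂ
  | 0, _ => 1
  | 1, w => 1 + w
  | (k + 2), w => (2 * (k : ℂ) + 3) * th (k + 1) w + w ^ 2 * th k w

/-- the Euclidean space of dimension `2 v + 3` -/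
abbrev EV (v : ℕ) := EuclideanSpace ℝ (Fin (2 * v + 3))

/-- Lebesgue measure on the closed ball of radius `R` -/
noncomputable abbrev muV (v : ℕ) (R : ℝ) : Measure (EV v) :=
  volume.restrict (Metric.closedBall (0 : EV v) R)

/-- the outgoing Green function of `-Δ - l²` in dimension `2 v + 3` -/
noncomputable def Gr (v : ℕ) (l : ℂ) (r : ℝ) : ℂ :=
  cexp (I * l * r) * th v (-(I * l * r)) /
    (4 * (Real.pi : ℂ) * (2 * (Real.pi : ℂ)) ^ v * (r : ℂ) ^ (2 * v + 1))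

/-- the heat kernel in dimension `2 v + 3` -/
noncomputable def hk (v : ℕ) (t r : ℝ) : ℝ :=
  (4 * Real.pi * t) ^ (-((2 * (v : ℝ) + 3) / 2)) * Real.exp (-r ^ 2 / (4 * t))

/-- Taylor coefficients of `exp (-w) * th v w` -/
noncomputable def ct : ℕ → ℕ → ℝ
  | 0, i => (-1) ^ i / (i.factorial : ℝ)
  | (v + 1), 0 => (2 * (v : ℝ) + 1) * ct v 0
  | (_ + 1), 1 => 0
  | (v + 1), (i + 2) => - ct v i / ((i : ℝ) + 2)

/-- the singular part of the Green function: an even polynomial in `l` -/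
noncomputable def Sg (v : ℕ) (l : ℂ) (r : ℝ) : ℂ :=
  (∑ i ∈ Finset.range (v + 1), (ct v (2 * i) : ℂ) * (-(I * l * r)) ^ (2 * i)) /
    (4 * (Real.pi : ℂ) * (2 * (Real.pi : ℂ)) ^ v * (r : ℂ) ^ (2 * v + 1))

/-- the regular part of the Green function, also at `r = 0` -/
noncomputable def Rg (v : ℕ) (l : ℂ) (r : ℝ) : ℂ :=
  (∑' i : ℕ, (ct v (2 * v + 1 + i) : ℂ) * (-(I * l)) ^ (2 * v + 1 + i) * (r : ℂ) ^ i) /
    (4 * (Real.pi : ℂ) * (2 * (Real.pi : ℂ)) ^ v)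

/-- coefficients of the even power series of `Gr v (-l) r - Gr v l r` -/
noncomputable def cg (v : ℕ) (l : ℂ) (j : ℕ) : ℂ :=
  -2 * (ct v (2 * v + 1 + 2 * j) : ℂ) * (-(I * l)) ^ (2 * v + 1 + 2 * j) /
    (4 * (Real.pi : ℂ) * (2 * (Real.pi : ℂ)) ^ v)

/-- the entire function of `r²` which equals `Gr v (-l) r - Gr v l r` for `r > 0` -/
noncomputable def Jg (v : ℕ) (l : ℂ) (r : ℝ) : ℂ := ∑' j : ℕ, cg v l j * (r : ℂ) ^ (2 * j)

/-- bounded operators on `L²` of the ball of radius `R` -/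
abbrev OpV (v : ℕ) (R : ℝ) := Lp ℂ 2 (muV v R) →L[ℂ] Lp ℂ 2 (muV v R)

/-- `A l` is the cut-off free resolvent, `T l` is `V` times it -/
structure FamG (v : ℕ) (R M : ℝ) (V : EV v → ℝ) (A T : ℂ → OpV v R) : Prop where
  hR : 0 < R
  hM : 0 ≤ M
  meas : Measurable V
  bdd : ∀ x, |V x| ≤ M
  supp : ∀ x, x ∉ Metric.closedBall (0 : EV v) R → V x = 0
  kA : ∀ l, IsKer (muV v R) (fun x y => Gr v l ‖x - y‖) (A l)
  kT : ∀ l, IsKer (muV v R) (fun x y => (V x : ℂ) * Gr v l ‖x - y‖) (T l)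

/-- cyclic product of `h ‖x i - x (i + 1)‖` over `i : Fin (k + 1)` -/
noncomputable def cyc {v k : ℕ} (h : ℝ → ℂ) (x : Fin (k + 1) → EV v) : ℂ :=
  ∏ i, h ‖x i - x (i + 1)‖

/-- the renormalized Born term with `k + 1 ≥ 2` factors -/
noncomputable def bornF (v k : ℕ) (V : EV v → ℝ) (l : ℂ) : ℂ :=
  (1 / ((k : ℂ) + 1)) * ∫ x : Fin (k + 1) → EV v,
    (∏ i, (V (x i) : ℂ)) * (cyc (Gr v l) x - cyc (Sg v l) x)

/-- the kernel of the Born term after `K` derivatives in the energy -/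
noncomputable def wK (v k K : ℕ) (s : ℝ) (x : Fin (k + 1) → EV v) : ℝ :=
  ∫ t in Set.pi Set.univ (fun _ : Fin (k + 1) => Set.Ioi (0 : ℝ)),
    (∑ i, t i) ^ K * Real.exp (-s * ∑ i, t i) * ∏ i, hk v (t i) ‖x i - x (i + 1)‖

/-- the Born term with `k + 1 ≥ 2` factors after `K` derivatives in the energy, at energy `-s` -/
noncomputable def bornD (v k K : ℕ) (V : EV v → ℝ) (s : ℝ) : ℝ :=
  (1 / ((k : ℝ) + 1)) * ∫ x : Fin (k + 1) → EV v, (∏ i, V (x i)) * wK v k K s x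

end Pool.Agent.H269
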