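import Pool.Agent.H269.DefsG

/-!
# Resonances in odd dimension: correlation functions and the scattering determinant
(helper269, MP_f2af60_mp)
-/

set_option autoImplicit false

open MeasureTheory Filter Topology Complex
open scoped InnerProductSpace ENNReal NNReal FourierTransform

namespace Pool.Agent.H269

/-- bounded measurable potentials supported in the ball of radius `R` -/
structure PotG (v : ℕ) (R M : ℝ) (V : EV v → ℝ) : Prop where
  hR : 0 < R
  hM : 0 < M
  meas : Measurable V
  bdd : ∀ x, |V x| ≤ M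
  supp : ∀ x, x ∉ Metric.closedBall (0 : EV v) R → V x = 0

/-- smooth functions with compact support -/
structure SmG (v : ℕ) (f : EV v → ℝ) : Prop where
  smooth : ContDiff ℝ ((⊤ : ℕ∞) : WithTop ℕ∞) f
  supp : HasCompactSupport f

/-- the Fourier transform of a real function -/
noncomputable def Vf {v : ℕ} (V : EV v → ℝ) (ξ : EV v) : ℂ := 𝓕 (fun x : EV v => (V x : ℂ)) ξ

/-- iterated partial derivatives -/
noncomputable def pd {v : ℕ} : List (Fin (2 * v + 3)) → (EV v → ℝ) → EV v → ℝ
  | [], f => f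
  | i :: L, f => fun x => fderiv ℝ (pd L f) x (EuclideanSpace.single i 1)

/-- the square of the homogeneous Sobolev norm of order `m` -/
noncomputable def En (v m : ℕ) (f : EV v → ℝ) : ℝ :=
  ∑ w : Fin m → Fin (2 * v + 3), ∫ x, (pd (List.ofFn w) f x) ^ 2

/-- correlation of the functions `g i` at the points `σ w i` -/
noncomputable def mcorr (v k : ℕ) (g : Fin (k + 1) → EV v → ℝ) (w : Fin (k + 1) → EV v)
    (σ : ℝ) : ℝ :=
  ∫ x, ∏ i, g i (x + σ • w i)

/-- correlation function of order `k + 1` -/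
noncomputable def corr (v k : ℕ) (V : EV v → ℝ) (y : Fin k → EV v) : ℝ :=
  ∫ x, V x * ∏ i, V (x + y i)

/-- the weight `wK` at energy `-1`, first point at the origin -/
noncomputable def wk1 (v k K : ℕ) (y : Fin k → EV v) : ℝ :=
  wK v k K 1 (Fin.cons 0 y : Fin (k + 1) → EV v)

/-- coefficients of the power series of `(1 - u) ^ (-β)` -/
noncomputable def cf (β : ℝ) (i : ℕ) : ℝ := (∏ j ∈ Finset.range i, (β + j)) / (i.factorial : ℝ)

/-- signed remainder of the expansion of `(1 + u) ^ (-β)` -/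
noncomputable def rm (β : ℝ) (m : ℕ) (u : ℝ) : ℝ :=
  (-1) ^ (m + 1) * ((1 + u) ^ (-β) - ∑ i ∈ Finset.range (m + 1), (-1) ^ i * cf β i * u ^ i)

/-- the exponent of the determinant -/
noncomputable def Psi (v : ℕ) (V : EV v → ℝ) (l : ℂ) : ℂ :=
  Rg v l 0 * (∫ x, (V x : ℂ)) + ∑ k ∈ Finset.Icc 1 (4 * v + 4), (-1) ^ k * bornF v k V l

/-- the scattering determinant -/
noncomputable def Df {ι : Type} [DecidableEq ι] {v : ℕ} {R : ℝ}
    (b : HilbertBasis ι ℂ (Lp ℂ 2 (muV v R))) (V : EV v → ℝ) (T : ℂ → OpV v R) (l : ℂ) : ℂ :=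
  det1 b (Kp (2 * (2 * v + 3)) (T l)) * cexp (Psi v V l)

end Pool.Agent.H269
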