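import Pool.Agent.H269.DefsG2

/-!
# Resonances in odd dimension: extension by zero (helper269, MP_f2af60_mp)
-/

set_option autoImplicit false

open MeasureTheory Filter Topology Complex
open scoped InnerProductSpace ENNReal NNReal

namespace Pool.Agent.H269

/-- the function `f` on the ball, extended by zero -/
noncomputable def extV (v : ℕ) (R : ℝ) (f : Lp ℂ 2 (muV v R)) : EV v → ℂ :=
  Set.indicator (Metric.closedBall (0 : EV v) R) (f : EV v → ℂ)

end Pool.Agent.H269
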